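import Mathlib
import Pool.Agent.X331.AF.Main

set_option autoImplicit false

/-!
# Lang's conjecture for points given by multiplicative and additive arithmetic functions

Let `X` be the integral closed subvariety of projective `n`-space over a field `k` of characteristic
`0` (for instance `ℚ`) given by the forms in `FF`, of degree at most `d`, which generate a prime
ideal.  We consider the rational points `P(1), P(2), P(3), …` of projective space whose homogeneous
coordinates are values of arithmetic functions, for instance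

  `(σ_{κ_0}(m) : … : σ_{κ_n}(m))`, `(m : φ(m) : σ(m) : d(m) : ω(m) : rad(m))`, …

The only condition (`PrimeCurves r s P`) is that for every `m` the point `P (m p)`, `p` a prime number
larger than all prime factors of `m`, is given by one of `s` curves `∑ c_a T ^ (l_a)` with `r` terms,
which depend on `m`, at `T = p`.  This holds for all vectors of multiplicative functions which are
given by `r`-term polynomials at the prime numbers (`r`-term polynomials on each of finitely many
classes of primes, with any values at the higher prime powers), for the additive functions of this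
kind, the greatest and the least prime factor, and so on; the exponents `l_a` are arbitrary.

(1) Suppose that `X` is not uniruled (for instance of general type, of positive dimension).  For
every `r` there is ONE proper closed subset `Z = X ∩ {G = 0}`, defined over `k`, such that for ALL
fields `L ⊇ k` and all such `P` over `L` at most

  `(s (d + 1) ^ r + 60000) N exp (-√(log N) / 4)`

points of `(X ∖ Z)(L)` are among `P(1), …, P(N)`.  Neither `Z` nor the bound depends on the
functions, on the exponents or on `L`; the bound does not even depend on `X`, only on its degree.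

(2) In particular there is one `Z` such that for all exponents `κ_i` and all `N` at most
`((d + 1) ^ (n + 2) + 60000) N exp (-√(log N) / 4)` points of `(X ∖ Z)(k)` are of the form
`(σ_{κ_0}(m) : … : σ_{κ_n}(m))` with `m ≤ N`.

(3) If `X` is uniruled, this fails: for some `r` and some `P` as above, with `s = 1`, all `P(m)` are
on `X`, and for every `G` which does not vanish on `X` a positive proportion of `P(1), …, P(N)` are
different points off `G = 0`.

Method: for each `m` a curve with `r` terms that is not contained in `X` meets `X` in a bounded number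
of points `P (m p)` by Descartes' rule of signs, uniformly in the exponents, and the curves
contained in `X` are constant or contained in one hypersurface, since `X` is not uniruled.  So each
`m` gives a bounded number of points off `Z`, and almost all `n ≤ N` are of the form `m p` with
`m ≤ N exp (-√(log N) / 4)`.
-/

namespace Pool.Agent.Results.MP_2ae8fe_ag.ArithmeticFunctionPoints

open MvPolynomial Pool.Agent.H533R3.SL Pool.Agent.X331.AF

/-- vectors of multiplicative functions, given by `r`-term polynomials at the prime numbers -/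
theorem primeCurves_of_multiplicative {L : Type} [Field L] {n r : ℕ} (f : ℕ → Fin (n + 1) → L)
    (hf : ∀ m p : ℕ, Above m p → ∀ i, f (m * p) i = f m i * f p i)
    (c : Fin r → Fin (n + 1) → L) (l : Fin r → ℕ)
    (hp : ∀ p : ℕ, p.Prime → ∀ i, f p i = ∑ a, c a i * (p : L) ^ (l a)) :
    PrimeCurves r 1 f := by
  intro m _
  refine ⟨fun _ a i => f m i * c a i, fun _ => l, fun p h => ⟨0, 1, one_ne_zero, fun i => ?_⟩⟩
  rw [hf m p h i, hp p h.1 i, one_mul, Finset.mul_sum]
  exact Finset.sum_congr rfl fun a _ => by ring

/-- vectors of additive functions, given by `r`-term polynomials at the prime numbers -/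
theorem primeCurves_of_additive {L : Type} [Field L] {n r : ℕ} (f : ℕ → Fin (n + 1) → L)
    (hf : ∀ m p : ℕ, Above m p → ∀ i, f (m * p) i = f m i + f p i)
    (c : Fin r → Fin (n + 1) → L) (l : Fin r → ℕ)
    (hp : ∀ p : ℕ, p.Prime → ∀ i, f p i = ∑ a, c a i * (p : L) ^ (l a)) :
    PrimeCurves (r + 1) 1 f := by
  intro m _
  refine ⟨fun _ => Fin.cons (f m) c, fun _ => Fin.cons 0 l,
    fun p h => ⟨0, 1, one_ne_zero, fun i => ?_⟩⟩
  rw [hf m p h i, hp p h.1 i, one_mul, Fin.sum_univ_succ]
  simp

theorem primeCurves_sigma {L : Type} [Field L] {n : ℕ} (κ : Fin (n + 1) → ℕ) :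
    PrimeCurves (n + 2) 1 (fun (m : ℕ) (i : Fin (n + 1)) =>
      ((ArithmeticFunction.sigma (κ i) m : ℕ) : L)) := by
  refine primeCurves_of_multiplicative _ ?_
    (fun a i => Fin.cases (1 : L) (fun j => if j = i then 1 else 0) a) (Fin.cons 0 κ) ?_
  · intro m p h i
    have hcop : m.Coprime p := by
      rw [Nat.coprime_comm, Nat.Prime.coprime_iff_not_dvd h.1]
      exact fun hd => lt_irrefl _ (h.2 p h.1 hd)
    show ((ArithmeticFunction.sigma (κ i) (m * p) : ℕ) : L) = _
    rw [ArithmeticFunction.isMultiplicative_sigma.map_mul_of_coprime hcop]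
    push_cast
    rfl
  · intro p hp i
    have h1 : ArithmeticFunction.sigma (κ i) p = 1 + p ^ (κ i) := by
      rw [ArithmeticFunction.sigma_apply, hp.divisors, Finset.sum_pair hp.one_lt.ne, one_pow]
    show ((ArithmeticFunction.sigma (κ i) p : ℕ) : L) = _
    rw [h1, Fin.sum_univ_succ]
    simp

theorem result (k : Type) [Field k] [CharZero k] (n d : ℕ) (hd : 1 ≤ d)
    (FF : Finset (MvPolynomial (Fin (n + 1)) k)) (hhom : ∀ F ∈ FF, ∃ e, e ≤ d ∧ F.IsHomogeneous e)
    (hprime : (Ideal.span (FF : Set (MvPolynomial (Fin (n + 1)) k))).IsPrime) :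
    (¬ Uniruled (Ideal.span (FF : Set (MvPolynomial (Fin (n + 1)) k))) →
      (∀ r : ℕ, ∃ G : MvPolynomial (Fin (n + 1)) k, (∃ e, G.IsHomogeneous e) ∧
        G ∉ Ideal.span (FF : Set (MvPolynomial (Fin (n + 1)) k)) ∧
        ∀ (L : Type) [Field L] [Algebra k L] (s : ℕ) (P : ℕ → Fin (n + 1) → L),
          PrimeCurves r s P → ∀ N : ℕ, 1 ≤ N →
            ((offPoints FF G P N).ncard : ℝ) ≤
              (s * (d + 1) ^ r + 60000) * N * Real.exp (-(√(Real.log N) / 4))) ∧
      ∃ G : MvPolynomial (Fin (n + 1)) k, (∃ e, G.IsHomogeneous e) ∧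
        G ∉ Ideal.span (FF : Set (MvPolynomial (Fin (n + 1)) k)) ∧
        ∀ (κ : Fin (n + 1) → ℕ) (N : ℕ), 1 ≤ N →
          ((offPoints FF G (fun (m : ℕ) (i : Fin (n + 1)) =>
            ((ArithmeticFunction.sigma (κ i) m : ℕ) : k)) N).ncard : ℝ) ≤
              ((d + 1) ^ (n + 2) + 60000) * N * Real.exp (-(√(Real.log N) / 4))) ∧
    (Uniruled (Ideal.span (FF : Set (MvPolynomial (Fin (n + 1)) k))) →
      ∃ (r : ℕ) (L : Type) (_ : Field L) (_ : Algebra k L) (P : ℕ → Fin (n + 1) → L),
        PrimeCurves r 1 P ∧ (∀ m, ∀ F ∈ FF, aeval (P m) F = 0) ∧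
        ∀ G : MvPolynomial (Fin (n + 1)) k, (∃ e, G.IsHomogeneous e) →
          G ∉ Ideal.span (FF : Set (MvPolynomial (Fin (n + 1)) k)) →
          ∃ δ : ℝ, 0 < δ ∧ ∃ N₀ : ℕ, ∀ N : ℕ, N₀ ≤ N →
            δ * N ≤ ((offPoints FF G P N).ncard : ℝ)) := by
  refine ⟨fun hnu => ?_, converse FF⟩
  have key : ∀ r : ℕ, ∃ G : MvPolynomial (Fin (n + 1)) k, (∃ e, G.IsHomogeneous e) ∧
        G ∉ Ideal.span (FF : Set (MvPolynomial (Fin (n + 1)) k)) ∧
        ∀ (L : Type) [Field L] [Algebra k L] (s : ℕ) (P : ℕ → Fin (n + 1) → L),
          PrimeCurves r s P → ∀ N : ℕ, 1 ≤ N →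
            ((offPoints FF G P N).ncard : ℝ) ≤
              (s * (d + 1) ^ r + 60000) * N * Real.exp (-(√(Real.log N) / 4)) := by
    intro r
    obtain ⟨G, ⟨g, hGg⟩, hGI, hG⟩ := exists_hyper (FF : Set (MvPolynomial (Fin (n + 1)) k)) hprime
      hnu d hd hhom r
    refine ⟨G, ⟨g, hGg⟩, hGI, fun L _ _ s P hP N hN => ?_⟩
    have hchar : CharZero L := charZero_of_injective_algebraMap
      (FaithfulSMul.algebraMap_injective k L)
    exact off_bound FF d hhom G g hGg (hG L) s P hP N hN
  refine ⟨key, ?_⟩
  obtain ⟨G, hG1, hG2, hG3⟩ := key (n + 2)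
  refine ⟨G, hG1, hG2, fun κ N hN => ?_⟩
  have h := hG3 k 1 _ (primeCurves_sigma κ) N hN
  simpa using h

end Pool.Agent.Results.MP_2ae8fe_ag.ArithmeticFunctionPoints
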