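import Mathlib
import Pool.Agent.TH138.LG.Conv
import Pool.Agent.TH138.LG.Main

set_option autoImplicit false

/-!
# Lang's conjecture for languages of digit expansions

Let `X` be the integral closed subvariety of projective `n`-space over a field `k` of characteristic
`0` (for instance a number field) given by the forms in `FF`, which generate a prime ideal.

Words are read in a number system over a field `L ⊇ k`: the base `b ∈ L` is different from `0` and not
a root of unity, `A` is a finite alphabet, and in phase `i` the letter `a` replaces each active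
coordinate `x_j` by `b x_j + δ i a j`; a separator (`none`) starts the next phase. The set of the
active coordinates and the digits `δ i a j ∈ L` are arbitrary. So the coordinates can be written one
after the other, or digit by digit at the same time (letters are then vectors of digits), in the base
`b`, for instance in the decimal system.

A language `𝓛` is `s`-iterative with constant `p` if each of its words with at least `p` letters is of
the form `u v₁ u₁ ⋯ v_s u_s` with `v_1, …, v_s` not all empty such that all the words
`u v₁ᵏ u₁ ⋯ v_sᵏ u_s`, `k ≥ 0`, belong to `𝓛`. Regular languages are `1`-iterative, context-free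
languages are `2`-iterative, and so on.

(1) Suppose that `X` is not uniruled (for instance of general type and of positive dimension). For
each `s` there is ONE proper closed subset `Z = X ∩ {G = 0}`, defined over `k`, such that for all
fields `L ⊇ k`, all bases, alphabets and digits over `L`, and all `s`-iterative languages `𝓛` with
boundedly many separators all of whose words represent points of `X`: the points outside of `Z` are
represented by words with less than `p` letters, where `p` is the constant of the language; in
particular only finitely many of the points are outside of `Z`. Neither `Z` nor the bound for the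
length of the words depend on `L`, on the base or on the digits, and the bound does not depend on `X`.

(2) In particular (`s = 2`) one `Z` works for all context-free languages of points of `X`, over all
`L` and in all bases, and for a context-free grammar `g` the points outside of `Z` are represented by
words of length at most `width g ^ m`, where `m` is the number of left-hand sides of rules and
`width g` the largest length of a right-hand side of a rule (at least `1`).

(3) If `X` is uniruled, this fails: for some `s` and some `L` there is an `s`-iterative language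
without separators, with base `2`, whose words represent points of `X` of which infinitely many are
outside of `G = 0`, for every `G` which does not vanish on `X`.
-/

namespace Pool.Agent.Results.MP_2ae8fe_ag.DigitLanguages

open MvPolynomial Pool.Agent.H533R3.SL Pool.Agent.TH138.LG

theorem result (k : Type) [Field k] [CharZero k] (n : ℕ)
    (FF : Finset (MvPolynomial (Fin (n + 1)) k)) (hhom : ∀ F ∈ FF, ∃ e, F.IsHomogeneous e)
    (hprime : (Ideal.span (FF : Set (MvPolynomial (Fin (n + 1)) k))).IsPrime) :
    (¬ Uniruled (Ideal.span (FF : Set (MvPolynomial (Fin (n + 1)) k))) →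
      (∀ s : ℕ, ∃ G : MvPolynomial (Fin (n + 1)) k, (∃ e, G.IsHomogeneous e) ∧
        G ∉ Ideal.span (FF : Set (MvPolynomial (Fin (n + 1)) k)) ∧
        ∀ (L : Type) [Field L] [Algebra k L] (b : L), b ≠ 0 → (∀ m : ℕ, 0 < m → b ^ m ≠ 1) →
          ∀ (A : Type) [Finite A] (act : ℕ → Fin (n + 1) → Bool) (δ : ℕ → A → Fin (n + 1) → L)
            (p : ℕ) (𝓛 : Set (List (Option A))), Iterative s p 𝓛 →
            (∃ m, ∀ w ∈ 𝓛, w.countP Option.isNone ≤ m) →
            (∀ w ∈ 𝓛, value b act δ w ≠ 0 ∧ ∀ F ∈ FF, aeval (value b act δ w) F = 0) →
            offPts b act δ 𝓛 G = offPts b act δ {w | w ∈ 𝓛 ∧ w.length < p} G ∧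
            (offPts b act δ 𝓛 G).Finite) ∧
      ∃ G : MvPolynomial (Fin (n + 1)) k, (∃ e, G.IsHomogeneous e) ∧
        G ∉ Ideal.span (FF : Set (MvPolynomial (Fin (n + 1)) k)) ∧
        ∀ (L : Type) [Field L] [Algebra k L] (b : L), b ≠ 0 → (∀ m : ℕ, 0 < m → b ^ m ≠ 1) →
          ∀ (A : Type) [Finite A] (act : ℕ → Fin (n + 1) → Bool) (δ : ℕ → A → Fin (n + 1) → L)
            (g : ContextFreeGrammar (Option A)),
            (∃ m, ∀ w ∈ g.language, w.countP Option.isNone ≤ m) →
            (∀ w ∈ g.language, value b act δ w ≠ 0 ∧ ∀ F ∈ FF, aeval (value b act δ w) F = 0) →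
            offPts b act δ g.language G = offPts b act δ {w | w ∈ g.language ∧
              w.length ≤ width g ^ (inputs g).card} G ∧
            (offPts b act δ g.language G).Finite) ∧
    (Uniruled (Ideal.span (FF : Set (MvPolynomial (Fin (n + 1)) k))) →
      ∃ (L : Type) (_ : Field L) (_ : Algebra k L) (A : Type) (_ : Finite A)
        (δ : ℕ → A → Fin (n + 1) → L) (s p : ℕ) (𝓛 : Set (List (Option A))),
        Iterative s p 𝓛 ∧ (∀ w ∈ 𝓛, w.countP Option.isNone = 0) ∧
        (∀ w ∈ 𝓛, value (2 : L) (fun _ _ => true) δ w ≠ 0 ∧
          ∀ F ∈ FF, aeval (value (2 : L) (fun _ _ => true) δ w) F = 0) ∧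
        ∀ G : MvPolynomial (Fin (n + 1)) k, (∃ e, G.IsHomogeneous e) →
          G ∉ Ideal.span (FF : Set (MvPolynomial (Fin (n + 1)) k)) →
          (offPts (2 : L) (fun _ _ => true) δ 𝓛 G).Infinite) := by
  classical
  refine ⟨fun hnu => ?_, fun hu => ?_⟩
  · choose! e he using hhom
    have hd : ∀ F ∈ (FF : Set (MvPolynomial (Fin (n + 1)) k)),
        ∃ e', e' ≤ ∑ F ∈ FF, e F + 1 ∧ F.IsHomogeneous e' := by
      intro F hF
      refine ⟨e F, ?_, he F hF⟩
      have := Finset.single_le_sum (f := e) (fun _ _ => Nat.zero_le _) (Finset.mem_coe.1 hF)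
      omega
    have key := fun s : ℕ => exists_hyper (FF : Set (MvPolynomial (Fin (n + 1)) k)) hprime hnu
      (∑ F ∈ FF, e F + 1) (by omega) hd (2 ^ s)
    constructor
    · intro s
      obtain ⟨G, ⟨e', hG1⟩, hG2, hG3⟩ := key s
      refine ⟨G, ⟨e', hG1⟩, hG2, fun L _ _ b hb0 hb A _ act δ p 𝓛 hit hsep hX => ?_⟩
      have h1 := points_short (FF : Set (MvPolynomial (Fin (n + 1)) k)) s p G e' hG1
        (fun c l h1 h2 => hG3 L c l h1 h2) b hb0 hb act δ 𝓛 hsep hX hit
      refine ⟨h1, ?_⟩
      rw [h1]
      exact offPts_finite b act δ 𝓛 p G
    · obtain ⟨G, ⟨e', hG1⟩, hG2, hG3⟩ := key 2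
      refine ⟨G, ⟨e', hG1⟩, hG2, fun L _ _ b hb0 hb A _ act δ g hsep hX => ?_⟩
      have h1 := points_short (FF : Set (MvPolynomial (Fin (n + 1)) k)) 2
        (width g ^ (inputs g).card + 1) G e' hG1
        (fun c l h1 h2 => hG3 L c l h1 h2) b hb0 hb act δ g.language hsep hX
        (iterative_of_grammar g)
      refine ⟨h1.trans (congrArg (fun S => offPts b act δ S G) ?_), ?_⟩
      · exact Set.ext fun w => and_congr_right fun _ => Nat.lt_succ_iff
      · rw [h1]
        exact offPts_finite b act δ g.language _ G
  · obtain ⟨L, hL, hA, A, hfin, δ, s, p, 𝓛, h1, h2, h3, h4⟩ := dense_language _ hu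
    exact ⟨L, hL, hA, A, hfin, δ, s, p, 𝓛, h1, h2,
      fun w hw => ⟨(h3 w hw).1, fun F hF => (h3 w hw).2 F (Ideal.subset_span hF)⟩,
      fun G hG hGI => h4 G hG hGI⟩

end Pool.Agent.Results.MP_2ae8fe_ag.DigitLanguages
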