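import Mathlib
import Pool.Agent.Y377.IR.All

set_option autoImplicit false

/-!
# Points given by iterated recurrences are not Zariski dense in varieties of general type

Let `H` be a group. A family of points `P h`, `h ∈ H`, of projective `N`-space over `ℂ` is given by
iterated recurrences (`IteratedOn P`) if there are homogeneous coordinates of `P h` which belong, as
functions of `h`, to a ring of functions on `H` which is obtained from the constants in finitely many
steps of the following kind (`FTow`): to the ring `R` the entries of an invertible matrix `X` of
functions on `H` and of its inverse are added, where for every `g ∈ H` the entries of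
`X(g h) X(h)⁻¹`, as functions of `h`, are in `R`. For the integers `H = ℤ` these are the iterated
linear recurrences, for example `2 ^ (n ^ 2)`, or the continuants with partial denominators
`2 ^ (n ^ 2) + n`; for a general group the first step gives the matrix coefficients of all finite
dimensional representations.

(1) If such a family is Zariski dense in an irreducible closed subvariety `X` of projective space,
with function field `K`, then for every intermediate field `E` of positive transcendence degree `v`,
that is, for every variety of positive dimension dominated by `X`: `E` is the function field of a
variety covered by rational curves (`Covered`), all pluricanonical forms on its smooth projective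
models vanish, and it is not of general type. In particular the family is not Zariski dense if `X`,
or a variety of positive dimension dominated by `X`, is of general type, or has Kodaira dimension
`≥ 0`.

(2) There is a normal subgroup of finite index in `H` such that on every coset the family is constant
or, for each projective algebraic set `V(I)` which contains the points of this coset, all these
points are in the Zariski closure of the nonconstant rational curves in `V(I)`. If all points of the
family lie in `V(I)`, only finitely many points are outside of this closure.

The theorem is proved in the library folders `Pool/Agent/Y377/IR`, `Y312/IR`, `Y657/IR`, `Y921/IR`,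
`Y987/IR`, `Y523/IR`, `Y737/IR`, `Y495/IR`, `Y68/IR`, `Y401/IR`, `Y529/IR` of the starting
repository, of which no starting hand-in states part (1); it is assembled here.
-/

namespace Pool.Agent.Results.MP_2ae8fe_ag.IteratedRationalPoints

open Set MvPolynomial Pool.Agent.Y377.IR
open scoped LinearAlgebra.Projectivization
open Pool.Agent.TH143.GT (Covered FunField Pluricanonical)
open Pool.Agent.W602.GT (IsForm GeneralType)
open Pool.Agent.TH143.EL (InV)

theorem result (N : ℕ) (H : Type) [Group H] (P : H → ℙ ℂ (Fin (N + 1) → ℂ))
    (hP : IteratedOn P) :
    -- (1): Zariski dense families
    (∀ (p : Ideal (MvPolynomial (Fin (N + 1)) ℂ)) (K : Type) [Field K] [Algebra ℂ K] (w : ℕ)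
      (y : Fin (N + 1) → K), FunField p 1 K w y → (∀ h, InV p (P h)) →
      (∀ G : MvPolynomial (Fin (N + 1)) ℂ, IsForm G → (∀ h, eval (P h).rep G = 0) → G ∈ p) →
        ∀ (E : IntermediateField ℂ K) (v : ℕ), Algebra.trdeg ℂ E = v → 0 < v →
          Covered E ∧ (∀ n : ℕ, 0 < n → ∀ ω : (Fin v → Derivation ℂ E E) → E,
            Pluricanonical v n ω → ω = 0) ∧ ¬ GeneralType ℂ E v) ∧
    -- (2): families in closed subsets
    (∃ Nn : Subgroup H, Nn.Normal ∧ Nn.FiniteIndex ∧ ∀ a, CosetAlternative Nn P a) ∧
    (∀ I : Ideal (MvPolynomial (Fin (N + 1)) ℂ), (∀ h, InV I (P h)) →
      (Set.range P \ ZClosure (RationalPoints I)).Finite) := by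
  refine ⟨fun p K _ _ w y hy hX hd E v hv hv0 => ?_, cosets hP, fun _ hI => finite_out_rat hP hI⟩
  obtain ⟨⟨h1, h2⟩, h3⟩ := dense_not_gt hy hP hX hd E hv hv0
  exact ⟨h1, h2, h3⟩

end Pool.Agent.Results.MP_2ae8fe_ag.IteratedRationalPoints
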