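import Mathlib
import Pool.Agent.X332.OR.Main

set_option autoImplicit false

/-!
# Points given by linear recurrences whose coefficients run along an orbit of a dynamical system

Let `T` be an irreducible affine variety over `ℂ`, of dimension at most `d`, with the prime ideal
`𝔱`, and let `t 0, t 1, t 2, …` be an orbit of a rational map from `T` to `T` such that every proper
closed subset of `T` contains only finitely many terms of the orbit (`Orbit 𝔱 t`). We consider the
sequences `f` of complex numbers which satisfy a linear recurrence

  `a_0 (t m) f (m) + a_1 (t m) f (m + 1) + … + a_r (t m) f (m + r) = 0` for all `m`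

with polynomials `a_k` on `T`, not all zero on `T` (`RecAlong 𝔱 t f`).

(1) Let `x 0, x 1, …` be a sequence of points of an integral closed subvariety `X` of projective
`N`-space, with homogeneous coordinates of this kind, which is Zariski dense in `X`. Then every
variety of dimension `v > d` dominated by `X` (an intermediate field `E` of transcendence degree `v`
of the function field `K` of `X`; for instance `E = K`, if `dim X > d`) is covered by rational
curves, it has no nonzero pluricanonical forms, and it is not of general type. So if `X` is of
general type, or only has a nonzero pluricanonical form, and `dim X > d`, then no such sequence of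
points is Zariski dense in `X`.

(2) If `T` is a curve (or a point), then every orbit with pairwise different terms is an orbit as
above. So for all `X` of general type of dimension at least two no sequence of points of `X` given
by linear recurrences with coefficients along an infinite orbit on a curve is Zariski dense in `X`.
Examples of such orbits are

* `t m = m` (P-recursive sequences);
* `t m = q ^ m`, `q` not a root of unity (`q`-holonomic sequences);
* the infinite orbits of all polynomials and rational functions of one variable of degree at least
  two, for instance `t m = 2 ^ (2 ^ m)`, and the infinite orbits of Lattès maps;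
* the multiples `m P` of a point of infinite order on an elliptic curve: the coefficients of the
  recurrences are rational functions in the coordinates of `m P`.

The dynamical system is not linear, and the coefficients grow arbitrarily fast (`t m = 2 ^ (2 ^ m)`).
The general theorem `TH143.DE.main_seq` of the starting library, which no starting hand-in uses,
is about sequences with coefficients in an abstract field of sequences; here it is extended to the
images of `X` and to orbits (`Pool/Agent/X332/OR`).
-/

namespace Pool.Agent.Results.MP_2ae8fe_ag.OrbitRecurrences

open MvPolynomial Pool.Agent.X332.OR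
open Pool.Agent.TH143.GT (Covered FunField Pluricanonical)
open Pool.Agent.TH143.DE (SeqDense)
open Pool.Agent.W602.GT (GeneralType)

theorem result (D : ℕ) (𝔱 : Ideal (MvPolynomial (Fin D) ℂ)) (t : ℕ → Fin D → ℂ) :
    -- (1)
    (Orbit 𝔱 t → ∀ d : ℕ, Algebra.trdeg ℂ (MvPolynomial (Fin D) ℂ ⧸ 𝔱) ≤ d →
      ∀ (N : ℕ) (p : Ideal (MvPolynomial (Fin (N + 1)) ℂ)) (K : Type) [Field K] [Algebra ℂ K]
        (w : ℕ) (y : Fin (N + 1) → K), FunField p 1 K w y →
      ∀ x : ℕ → Fin (N + 1) → ℂ, (∀ m, x m ≠ 0) → (∀ j, RecAlong 𝔱 t fun m => x m j) →
        (∀ m, ∀ H ∈ p, eval (x m) H = 0) → SeqDense p x →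
      ∀ (E : IntermediateField ℂ K) (v : ℕ), Algebra.trdeg ℂ E = v → d < v →
        Covered E ∧ (∀ n : ℕ, 0 < n → ∀ ω : (Fin v → Derivation ℂ E E) → E,
          Pluricanonical v n ω → ω = 0) ∧ ¬ GeneralType ℂ E v) ∧
    -- (2)
    (𝔱.IsPrime → Algebra.trdeg ℂ (MvPolynomial (Fin D) ℂ ⧸ 𝔱) ≤ 1 → Function.Injective t →
      (∀ m, ∀ P ∈ 𝔱, eval (t m) P = 0) →
      (∃ F G : Fin D → MvPolynomial (Fin D) ℂ, (∀ i, G i ∉ 𝔱) ∧
        ∀ m i, t (m + 1) i * eval (t m) (G i) = eval (t m) (F i)) → Orbit 𝔱 t) :=
  ⟨fun ho _ hd _ _ _ _ _ _ _ hy _ _ hx hX hdense E _ hv hdv =>
    orbit_images ho hd hy hx hX hdense E hv hdv,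
    fun hp htr ht hmem hstep => orbit_of_curve hp htr ht hmem hstep⟩

end Pool.Agent.Results.MP_2ae8fe_ag.OrbitRecurrences
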